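import Pool.Agent.H569R2.VDel.Defs

/-!
# Certificates for (in)stability
-/

namespace Pool.Agent.H569R2.VDel

open Finset

variable {V : Type*} [Fintype V] {G : SimpleGraph V}

open Classical in
/-- weak duality -/
theorem frac_le {x : Sym2 V → ℝ} (hx : IsFracMatching G x) {y : V → ℝ} (hy : ∀ v, 0 ≤ y v)
    (hc : ∀ u v, G.Adj u v → 1 ≤ y u + y v) : ∑ e, x e ≤ ∑ v, y v := by
  obtain ⟨h0, hs, h1⟩ := hx
  have key : ∀ e : Sym2 V, x e ≤ ∑ v, if v ∈ e then y v * x e else 0 := by
    intro e
    by_cases he : e ∈ G.edgeSet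
    · induction e with | _ u v =>
      have huv : G.Adj u v := he
      have hne : u ≠ v := huv.ne
      have hsub : ({u, v} : Finset V) ⊆ univ := subset_univ _
      have h2 : ∑ w ∈ ({u, v} : Finset V), (if w ∈ s(u, v) then y w * x s(u, v) else 0) ≤
          ∑ w, (if w ∈ s(u, v) then y w * x s(u, v) else 0) := by
        apply sum_le_sum_of_subset_of_nonneg hsub
        intro i _ _
        split_ifs
        · exact mul_nonneg (hy i) (h0 _)
        · exact le_rfl
      refine le_trans ?_ h2
      rw [sum_pair hne]
      simp only [Sym2.mem_iff, true_or, or_true, if_true]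
      have := hc u v huv
      have := h0 s(u, v)
      nlinarith
    · rw [hs e he]
      apply sum_nonneg
      intro i _
      split_ifs <;> simp
  calc ∑ e, x e ≤ ∑ e, ∑ v, (if v ∈ e then y v * x e else 0) := sum_le_sum fun e _ => key e
    _ = ∑ v, ∑ e, (if v ∈ e then y v * x e else 0) := sum_comm
    _ = ∑ v, y v * ∑ e ∈ univ.filter (fun e : Sym2 V => v ∈ e), x e := by
        apply sum_congr rfl
        intro v _
        rw [mul_sum, sum_filter]
    _ ≤ ∑ v, y v * 1 := sum_le_sum fun v _ => mul_le_mul_of_nonneg_left (h1 v) (hy v)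
    _ = ∑ v, y v := by simp

open Classical in
theorem bddAbove_frac : BddAbove {r : ℝ | ∃ x : Sym2 V → ℝ, IsFracMatching G x ∧ ∑ e, x e = r} := by
  refine ⟨∑ _v : V, 1, ?_⟩
  rintro r ⟨x, hx, rfl⟩
  exact frac_le hx (fun _ => zero_le_one) (fun _ _ _ => by norm_num)

open Classical in
theorem frac_le_nuf {x : Sym2 V → ℝ} (hx : IsFracMatching G x) : ∑ e, x e ≤ nuf G :=
  le_csSup bddAbove_frac ⟨x, hx, rfl⟩

omit [Fintype V] in
theorem bddAbove_match [Finite V] :
    BddAbove {k : ℕ | ∃ M : Finset (Sym2 V), IsMatching G M ∧ M.card = k} := by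
  classical
  have := Fintype.ofFinite V
  refine ⟨Fintype.card (Sym2 V), ?_⟩
  rintro k ⟨M, _, rfl⟩
  exact card_le_univ M

omit [Fintype V] in
theorem card_le_nu [Finite V] {M : Finset (Sym2 V)} (hM : IsMatching G M) : M.card ≤ nu G :=
  le_csSup bddAbove_match ⟨M, hM, rfl⟩

omit [Fintype V] in
theorem exists_nu [Finite V] : ∃ M : Finset (Sym2 V), IsMatching G M ∧ M.card = nu G :=
  Nat.sSup_mem (s := {k : ℕ | ∃ M : Finset (Sym2 V), IsMatching G M ∧ M.card = k})
    ⟨0, ∅, ⟨by simp, by simp⟩, by simp⟩ bddAbove_match

open Classical in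
/-- the 0-1 fractional matching of a matching -/
theorem isFrac_of_match {M : Finset (Sym2 V)} (hM : IsMatching G M) :
    IsFracMatching G (fun e => if e ∈ M then (1 : ℝ) else 0) := by
  refine ⟨fun e => by dsimp only; split_ifs <;> simp, fun e he => ?_, fun v => ?_⟩
  · dsimp only
    rw [if_neg]
    intro h
    exact he (hM.1 e h)
  · rw [sum_ite, sum_const_zero, add_zero, sum_const, nsmul_eq_mul, mul_one]
    have : (filter (fun e => e ∈ M) (filter (fun e : Sym2 V => v ∈ e) univ)).card ≤ 1 := by
      rw [card_le_one]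
      intro a ha b hb
      simp only [mem_filter, mem_univ, true_and] at ha hb
      exact hM.2 v a b ha.2 hb.2 ha.1 hb.1
    exact_mod_cast this

theorem nu_le_nuf : (nu G : ℝ) ≤ nuf G := by
  classical
  obtain ⟨M, hM, hc⟩ := exists_nu (G := G)
  have := frac_le_nuf (isFrac_of_match hM)
  rw [← hc]
  refine le_trans (le_of_eq ?_) this
  simp

/-- A matching, given by a symmetric functional relation, and a fractional vertex cover satisfying
the complementary slackness conditions certify stability. -/
theorem stable_of_cert (R : V → V → Prop) (hsub : ∀ u v, R u v → G.Adj u v)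
    (hsym : ∀ u v, R u v → R v u) (hfun : ∀ u v w, R u v → R u w → v = w)
    (y : V → ℝ) (hy : ∀ v, 0 ≤ y v) (hc : ∀ u v, G.Adj u v → 1 ≤ y u + y v)
    (hcov : ∀ v, y v ≠ 0 → ∃ w, R v w) (htight : ∀ u v, R u v → y u + y v ≤ 1) : Stable G := by
  classical
  set M : Finset (Sym2 V) := univ.filter (fun e => ∃ u v, e = s(u, v) ∧ R u v) with hMdef
  have hmem : ∀ u v, s(u, v) ∈ M ↔ R u v := by
    intro u v
    rw [hMdef, mem_filter]
    constructor
    · rintro ⟨_, a, b, hab, hr⟩
      rw [Sym2.eq_iff] at hab
      rcases hab with ⟨rfl, rfl⟩ | ⟨rfl, rfl⟩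
      · exact hr
      · exact hsym _ _ hr
    · intro h
      exact ⟨mem_univ _, u, v, rfl, h⟩
  have hM : IsMatching G M := by
    constructor
    · intro e he
      rw [hMdef, mem_filter] at he
      obtain ⟨_, u, v, rfl, hr⟩ := he
      exact hsub _ _ hr
    · intro v e f he hf hve hvf
      obtain ⟨a, rfl⟩ := hve
      obtain ⟨b, rfl⟩ := hvf
      rw [hfun v a b ((hmem _ _).1 he) ((hmem _ _).1 hf)]
  refine le_antisymm nu_le_nuf ?_
  have h1 : ∑ v, y v ≤ (M.card : ℝ) := by
    have h2 : ∀ v, y v ≤ ∑ e ∈ M, if v ∈ e then y v else 0 := by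
      intro v
      by_cases hv : y v = 0
      · rw [hv]; simp
      · obtain ⟨w, hw⟩ := hcov v hv
        have h3 : ∑ e ∈ ({s(v, w)} : Finset (Sym2 V)), (if v ∈ e then y v else 0) ≤
            ∑ e ∈ M, (if v ∈ e then y v else 0) := by
          apply sum_le_sum_of_subset_of_nonneg
          · intro e he
            rw [mem_singleton] at he
            rw [he, hmem]
            exact hw
          · intro i _ _
            split_ifs
            · exact hy v
            · exact le_rfl
        refine le_trans (le_of_eq ?_) h3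
        simp
    calc ∑ v, y v ≤ ∑ v, ∑ e ∈ M, (if v ∈ e then y v else 0) := sum_le_sum fun v _ => h2 v
      _ = ∑ e ∈ M, ∑ v, (if v ∈ e then y v else 0) := sum_comm
      _ ≤ ∑ e ∈ M, (1 : ℝ) := by
          apply sum_le_sum
          intro e he
          induction e with | _ u v =>
          have hr := (hmem _ _).1 he
          have hne : u ≠ v := (hsub _ _ hr).ne
          rw [← sum_filter]
          have : univ.filter (fun w => w ∈ s(u, v)) = {u, v} := by
            ext w; simp
          rw [this, sum_pair hne]
          exact htight _ _ hr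
      _ = (M.card : ℝ) := by simp
  refine csSup_le ⟨0, fun _ => 0, ⟨by simp, by simp, by simp⟩, by simp⟩ ?_
  rintro r ⟨x, hx, rfl⟩
  refine (frac_le hx hy hc).trans (h1.trans ?_)
  exact_mod_cast card_le_nu hM

/-- A maximum matching which meets a triangle only in edges of this triangle shows instability. -/
theorem not_stable_of_triangle {M : Finset (Sym2 V)} (hM : IsMatching G M) (hcard : M.card = nu G)
    {a b d : V} (hab : G.Adj a b) (hbd : G.Adj b d) (had : G.Adj a d)
    (ht : ∀ e ∈ M, a ∈ e ∨ b ∈ e ∨ d ∈ e → e = s(a, b) ∨ e = s(b, d) ∨ e = s(a, d)) :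
    ¬ Stable G := by
  classical
  intro hst
  have nab := hab.ne
  have nbd := hbd.ne
  have nad := had.ne
  set Tr : Finset (Sym2 V) := {s(a, b), s(b, d), s(a, d)} with hTr
  have e1 : s(a, b) ≠ s(b, d) := by
    intro h; rw [Sym2.eq_iff] at h; rcases h with h | h
    · exact nab h.1
    · exact nad h.1
  have e2 : s(a, b) ≠ s(a, d) := by
    intro h; rw [Sym2.eq_iff] at h; rcases h with h | h
    · exact nbd h.2
    · exact nad h.1
  have e3 : s(b, d) ≠ s(a, d) := by
    intro h; rw [Sym2.eq_iff] at h; rcases h with h | h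
    · exact nab h.1.symm
    · exact nbd h.1
  have hTc : Tr.card = 3 := by
    rw [hTr, card_insert_of_notMem, card_insert_of_notMem, card_singleton]
    · simpa using e3
    · simp only [mem_insert, mem_singleton, not_or]
      exact ⟨e1, e2⟩
  -- at most one edge of the matching in the triangle
  have hMT : (M ∩ Tr).card ≤ 1 := by
    rw [card_le_one]
    intro e he f hf
    rw [mem_inter] at he hf
    by_contra hne
    have : ∃ v, v ∈ e ∧ v ∈ f := by
      have h1 := he.2
      have h2 := hf.2
      simp only [hTr, mem_insert, mem_singleton] at h1 h2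
      rcases h1 with rfl | rfl | rfl <;> rcases h2 with rfl | rfl | rfl
      · exact absurd rfl hne
      · exact ⟨b, by simp, by simp⟩
      · exact ⟨a, by simp, by simp⟩
      · exact ⟨b, by simp, by simp⟩
      · exact absurd rfl hne
      · exact ⟨d, by simp, by simp⟩
      · exact ⟨a, by simp, by simp⟩
      · exact ⟨d, by simp, by simp⟩
      · exact absurd rfl hne
    obtain ⟨v, hv1, hv2⟩ := this
    exact hne (hM.2 v e f he.1 hf.1 hv1 hv2)
  set x : Sym2 V → ℝ := fun e => (if e ∈ M \ Tr then 1 else 0) + (if e ∈ Tr then 1 / 2 else 0)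
    with hx
  have hfrac : IsFracMatching G x := by
    refine ⟨fun e => ?_, fun e he => ?_, fun v => ?_⟩
    · rw [hx]; dsimp only; split_ifs <;> norm_num
    · rw [hx]; dsimp only
      rw [if_neg, if_neg, add_zero]
      · intro h
        apply he
        simp only [hTr, mem_insert, mem_singleton] at h
        rcases h with rfl | rfl | rfl
        · exact hab
        · exact hbd
        · exact had
      · intro h
        exact he (hM.1 e (mem_sdiff.1 h).1)
    · rw [hx]; dsimp only
      rw [sum_add_distrib, ← sum_filter, ← sum_filter, filter_filter, filter_filter, sum_const,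
        sum_const, nsmul_eq_mul, nsmul_eq_mul, mul_one]
      by_cases hv : v = a ∨ v = b ∨ v = d
      · have h0 : (univ.filter (fun e : Sym2 V => v ∈ e ∧ e ∈ M \ Tr)) = ∅ := by
          rw [filter_eq_empty_iff]
          rintro e - ⟨h1, h2⟩
          rw [mem_sdiff] at h2
          apply h2.2
          have := ht e h2.1 (by
            rcases hv with rfl | rfl | rfl
            · exact Or.inl h1
            · exact Or.inr (Or.inl h1)
            · exact Or.inr (Or.inr h1))
          simpa [hTr] using this
        have h2 : (univ.filter (fun e : Sym2 V => v ∈ e ∧ e ∈ Tr)).card ≤ 2 := by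
          have : ∃ f ∈ Tr, v ∉ f := by
            rcases hv with rfl | rfl | rfl
            · exact ⟨s(b, d), by simp [hTr], by simp [nab, nad]⟩
            · exact ⟨s(a, d), by simp [hTr], by simp [nab.symm, nbd]⟩
            · exact ⟨s(a, b), by simp [hTr], by simp [nad.symm, nbd.symm]⟩
          obtain ⟨f, hf, hvf⟩ := this
          have hsub : univ.filter (fun e : Sym2 V => v ∈ e ∧ e ∈ Tr) ⊆ Tr.erase f := by
            intro e he
            rw [mem_filter] at he
            rw [mem_erase]
            refine ⟨?_, he.2.2⟩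
            rintro rfl
            exact hvf he.2.1
          calc _ ≤ (Tr.erase f).card := card_le_card hsub
            _ = 2 := by rw [card_erase_of_mem hf, hTc]
        rw [h0]
        have h3 : ((univ.filter (fun e : Sym2 V => v ∈ e ∧ e ∈ Tr)).card : ℝ) ≤ 2 := by
          exact_mod_cast h2
        simp only [card_empty, Nat.cast_zero, zero_add]
        linarith
      · push Not at hv
        have h0 : (univ.filter (fun e : Sym2 V => v ∈ e ∧ e ∈ Tr)) = ∅ := by
          rw [filter_eq_empty_iff]
          rintro e - ⟨h1, h2⟩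
          simp only [hTr, mem_insert, mem_singleton] at h2
          rcases h2 with rfl | rfl | rfl <;> simp only [Sym2.mem_iff] at h1 <;>
            rcases h1 with h1 | h1 <;> first | exact hv.1 h1 | exact hv.2.1 h1 | exact hv.2.2 h1
        have h2 : (univ.filter (fun e : Sym2 V => v ∈ e ∧ e ∈ M \ Tr)).card ≤ 1 := by
          rw [card_le_one]
          intro e he f hf
          simp only [mem_filter, mem_univ, true_and, mem_sdiff] at he hf
          exact hM.2 v e f he.2.1 hf.2.1 he.1 hf.1
        rw [h0]
        simp only [card_empty, Nat.cast_zero, zero_mul, add_zero]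
        exact_mod_cast h2
  have hle := frac_le_nuf hfrac
  have hsum : ∑ e, x e = ((M \ Tr).card : ℝ) + 3 / 2 := by
    rw [hx]; dsimp only
    rw [sum_add_distrib, ← sum_filter, ← sum_filter, sum_const, sum_const, nsmul_eq_mul,
      nsmul_eq_mul, mul_one]
    have h1 : univ.filter (fun e : Sym2 V => e ∈ M \ Tr) = M \ Tr := by ext e; simp
    have h2 : univ.filter (fun e : Sym2 V => e ∈ Tr) = Tr := by ext e; simp
    rw [h1, h2, hTc]
    norm_num
  have hc2 : (M \ Tr).card + (M ∩ Tr).card = M.card := card_sdiff_add_card_inter M Tr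
  have hge : ((M.card : ℝ)) ≤ ((M \ Tr).card : ℝ) + 1 := by
    have : M.card ≤ (M \ Tr).card + 1 := by omega
    exact_mod_cast this
  rw [hsum] at hle
  unfold Stable at hst
  rw [← hst, ← hcard] at hle
  linarith

end Pool.Agent.H569R2.VDel
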