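import Pool.Agent.NPC.Defs

/-!
# Minimum-cost vertex deletion to stabilise a graph: definitions

Matching number, fractional matching number, stable graphs, instances of min-Cost-VERTEX-DEL and of
Set Cover, polynomial-time approximation algorithms.
-/

namespace Pool.Agent.H569R2.VDel

open Pool.Agent.NPC

section Graphs

open Classical in
/-- A matching of `G`: a finite set of edges no two of which have a common end. -/
def IsMatching {V : Type*} (G : SimpleGraph V) (M : Finset (Sym2 V)) : Prop :=
  (∀ e ∈ M, e ∈ G.edgeSet) ∧ ∀ (v : V) (e f : Sym2 V), e ∈ M → f ∈ M → v ∈ e → v ∈ f → e = f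

/-- The matching number `ν(G)`: the maximum size of a matching. -/
noncomputable def nu {V : Type*} (G : SimpleGraph V) : ℕ :=
  sSup {k : ℕ | ∃ M : Finset (Sym2 V), IsMatching G M ∧ M.card = k}

open Classical in
/-- A fractional matching of `G`: nonnegative real weights on the edges of `G`, such that for every
vertex the total weight of the edges containing it is at most `1`. -/
def IsFracMatching {V : Type*} [Fintype V] (G : SimpleGraph V) (x : Sym2 V → ℝ) : Prop :=
  (∀ e, 0 ≤ x e) ∧ (∀ e, e ∉ G.edgeSet → x e = 0) ∧
    ∀ v : V, ∑ e ∈ Finset.univ.filter (fun e : Sym2 V => v ∈ e), x e ≤ 1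

open Classical in
/-- The fractional matching number `ν_f(G)`: the maximum total weight of a fractional matching. -/
noncomputable def nuf {V : Type*} [Fintype V] (G : SimpleGraph V) : ℝ :=
  sSup {r : ℝ | ∃ x : Sym2 V → ℝ, IsFracMatching G x ∧ ∑ e, x e = r}

/-- A graph is stable if `ν(G) = ν_f(G)`. -/
def Stable {V : Type*} [Fintype V] (G : SimpleGraph V) : Prop := (nu G : ℝ) = nuf G

end Graphs

/-- An instance of min-Cost-VERTEX-DEL: the list of the costs of the vertices `0, 1, …, n - 1`
(where `n` is the length of this list), which are natural numbers, and a list of edges. -/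
abbrev Inst := List ℕ × List (ℕ × ℕ)

/-- The graph of an instance: two different vertices are adjacent if one of the two pairs formed by
them is in the list of edges. -/
def graph (I : Inst) : SimpleGraph (Fin I.1.length) :=
  SimpleGraph.fromRel (fun u v => ((u : ℕ), (v : ℕ)) ∈ I.2)

open Classical in
/-- `S` is a feasible solution: the subgraph induced on the vertices outside `S` is stable. -/
def Feasible (I : Inst) (S : List ℕ) : Prop :=
  Stable ((graph I).induce {v : Fin I.1.length | (v : ℕ) ∉ S})

/-- The cost of a solution: the sum of the costs of the vertices of the graph which are in `S`. -/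
def cost (I : Inst) (S : List ℕ) : ℕ :=
  ∑ v ∈ Finset.univ.filter (fun v : Fin I.1.length => (v : ℕ) ∈ S), I.1[v]

/-- min-Cost-VERTEX-DEL, restricted to the instances satisfying `P`, has a polynomial-time
`α`-approximation algorithm: there is a polynomial-time function which maps the code of every
instance satisfying `P` to the code of a feasible solution whose cost is at most `α` times the cost
of any feasible solution. -/
def VDApprox (P : Inst → Prop) (α : ℝ) : Prop :=
  ∃ F : List Bool → List Bool, PolyTime F ∧ ∀ I : Inst, P I →
    ∃ S : List ℕ, F (bits I) = bits S ∧ Feasible I S ∧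
      ∀ S' : List ℕ, Feasible I S' → (cost I S : ℝ) ≤ α * (cost I S' : ℝ)

/-- The restriction of the problem in which every vertex has one of two costs: `1` or some natural
number `M`. -/
def TwoCosts (I : Inst) : Prop := ∃ M : ℕ, ∀ c ∈ I.1, c = 1 ∨ c = M

/-- `C` is a set cover for the (finite) family `I` of finite sets of natural numbers: a list of
members of the family whose union is the union of the whole family. -/
def IsCover (I C : List (List ℕ)) : Prop :=
  (∀ s ∈ C, s ∈ I) ∧ ∀ s ∈ I, ∀ x ∈ s, ∃ s' ∈ C, x ∈ s'

/-- Set Cover has a polynomial-time `β`-approximation algorithm. -/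
def SCApprox (β : ℝ) : Prop :=
  ∃ F : List Bool → List Bool, PolyTime F ∧ ∀ I : List (List ℕ),
    ∃ C : List (List ℕ), F (bits I) = bits C ∧ IsCover I C ∧
      ∀ C' : List (List ℕ), IsCover I C' → (C.length : ℝ) ≤ β * (C'.length : ℝ)

end Pool.Agent.H569R2.VDel
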