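import Pool.Agent.H569R2.VDel.Core

/-!
# The gadget graph

Labels `(0, p, 0), (0, p, 1), (0, p, 2)`: the triangle of the element `p < n`;
`(1, p, i)`: the connector of the element `p` and the set `i` containing it;
`(2, i, j)`, `j < N`: the copies of the single vertex of the set `i`.
-/

namespace Pool.Agent.H569R2.VDel

open Finset

/-- The oriented adjacencies between labels. -/
def E1 (n N : ℕ) (Mem : ℕ → ℕ → Prop) (x y : ℕ × ℕ × ℕ) : Prop :=
  (∃ p, p < n ∧ x = (0, p, 0) ∧ y = (0, p, 1)) ∨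
  (∃ p, p < n ∧ x = (0, p, 1) ∧ y = (0, p, 2)) ∨
  (∃ p, p < n ∧ x = (0, p, 0) ∧ y = (0, p, 2)) ∨
  (∃ p i, Mem p i ∧ x = (0, p, 0) ∧ y = (1, p, i)) ∨
  (∃ p i j, Mem p i ∧ j < N ∧ x = (1, p, i) ∧ y = (2, i, j))

variable {W : Type*} [Fintype W] {H : SimpleGraph W} {n N : ℕ} {Mem : ℕ → ℕ → Prop}
  {lab : W → ℕ × ℕ × ℕ}

/-- completeness -/
theorem stable_of_cover (hinj : Function.Injective lab) (hMn : ∀ p i, Mem p i → p < n)
    (hadj : ∀ u v, H.Adj u v ↔ E1 n N Mem (lab u) (lab v) ∨ E1 n N Mem (lab v) (lab u))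
    (X : Set ℕ) (hX : ∀ u i j, j < N → lab u = (2, i, j) → i ∉ X)
    (pt : ∀ p, p < n → ∀ k, k < 3 → ∃ u, lab u = (0, p, k))
    (pc : ∀ p i, Mem p i → ∃ u, lab u = (1, p, i))
    (ps : ∀ p i, Mem p i → i ∉ X → ∃ u, lab u = (2, i, p)) (hnN : n ≤ N)
    (hcov : ∀ p, p < n → ∃ i, i ∈ X ∧ Mem p i) : Stable H := by
  classical
  choose! f hfX hfM using hcov
  let R1 : ℕ × ℕ × ℕ → ℕ × ℕ × ℕ → Prop := fun x y =>
    (∃ p, p < n ∧ x = (0, p, 0) ∧ y = (1, p, f p)) ∨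
    (∃ p, p < n ∧ x = (0, p, 1) ∧ y = (0, p, 2)) ∨
    (∃ p i, Mem p i ∧ i ∉ X ∧ x = (1, p, i) ∧ y = (2, i, p))
  let yl : ℕ × ℕ × ℕ → ℝ := fun x =>
    if ∃ p, p < n ∧ x = (0, p, 0) then 1
    else if ∃ p, p < n ∧ (x = (0, p, 1) ∨ x = (0, p, 2)) then 1 / 2
    else if ∃ p i, Mem p i ∧ i ∉ X ∧ x = (1, p, i) then 1 else 0
  have y0 : ∀ p, p < n → yl (0, p, 0) = 1 := by
    intro p hp
    simp only [yl]
    rw [if_pos ⟨p, hp, rfl⟩]
  have y1 : ∀ p, p < n → yl (0, p, 1) = 1 / 2 := by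
    intro p hp
    simp only [yl]
    rw [if_neg (by rintro ⟨q, _, h⟩; simp at h), if_pos ⟨p, hp, Or.inl rfl⟩]
  have y2 : ∀ p, p < n → yl (0, p, 2) = 1 / 2 := by
    intro p hp
    simp only [yl]
    rw [if_neg (by rintro ⟨q, _, h⟩; simp at h), if_pos ⟨p, hp, Or.inr rfl⟩]
  have yc : ∀ p i, Mem p i → i ∉ X → yl (1, p, i) = 1 := by
    intro p i hm hi
    simp only [yl]
    rw [if_neg (by rintro ⟨q, _, h⟩; simp at h), if_neg (by rintro ⟨q, _, h⟩; simp at h),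
      if_pos ⟨p, i, hm, hi, rfl⟩]
  have yc0 : ∀ p i, i ∈ X → yl (1, p, i) = 0 := by
    intro p i hi
    simp only [yl]
    rw [if_neg (by rintro ⟨q, _, h⟩; simp at h), if_neg (by rintro ⟨q, _, h⟩; simp at h),
      if_neg]
    rintro ⟨q, i', _, h, h'⟩
    simp only [Prod.mk.injEq, true_and] at h'
    rw [h'.2] at hi
    exact h hi
  have ys : ∀ i j, yl (2, i, j) = 0 := by
    intro i j
    simp only [yl]
    rw [if_neg (by rintro ⟨q, _, h⟩; simp at h), if_neg (by rintro ⟨q, _, h⟩; simp at h),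
      if_neg (by rintro ⟨q, i', _, _, h⟩; simp at h)]
  have ynn : ∀ x, 0 ≤ yl x := by
    intro x
    simp only [yl]
    split_ifs <;> norm_num
  refine stable_of_cert (fun u v => R1 (lab u) (lab v) ∨ R1 (lab v) (lab u)) ?_ ?_ ?_
    (fun u => yl (lab u)) (fun u => ynn _) ?_ ?_ ?_
  · -- edges
    have h1 : ∀ x y, R1 x y → E1 n N Mem x y := by
      rintro x y (⟨p, hp, rfl, rfl⟩ | ⟨p, hp, rfl, rfl⟩ | ⟨p, i, hm, hi, rfl, rfl⟩)
      · exact Or.inr (Or.inr (Or.inr (Or.inl ⟨p, f p, hfM p hp, rfl, rfl⟩)))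
      · exact Or.inr (Or.inl ⟨p, hp, rfl, rfl⟩)
      · exact Or.inr (Or.inr (Or.inr (Or.inr ⟨p, i, p, hm, lt_of_lt_of_le (hMn _ _ hm) hnN,
          rfl, rfl⟩)))
    rintro u v (h | h)
    · exact (hadj u v).2 (Or.inl (h1 _ _ h))
    · exact (hadj u v).2 (Or.inr (h1 _ _ h))
  · rintro u v (h | h)
    · exact Or.inr h
    · exact Or.inl h
  · -- functional
    have h1 : ∀ x y z, (R1 x y ∨ R1 y x) → (R1 x z ∨ R1 z x) → y = z := by
      intro x y z hxy hxz
      rcases hxy with (⟨p, hp, rfl, rfl⟩ | ⟨p, hp, rfl, rfl⟩ | ⟨p, i, hm, hi, rfl, rfl⟩) |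
          (⟨p, hp, rfl, rfl⟩ | ⟨p, hp, rfl, rfl⟩ | ⟨p, i, hm, hi, rfl, rfl⟩) <;>
        rcases hxz with (⟨p', hp', hx, rfl⟩ | ⟨p', hp', hx, rfl⟩ | ⟨p', i', hm', hi', hx, rfl⟩) |
          (⟨p', hp', rfl, hx⟩ | ⟨p', hp', rfl, hx⟩ | ⟨p', i', hm', hi', rfl, hx⟩) <;>
        simp only [Prod.mk.injEq] at hx <;> (try omega) <;>
        (try (obtain ⟨_, rfl, _⟩ := hx; rfl)) <;>
        (try (obtain ⟨_, rfl, rfl⟩ := hx; rfl)) <;>
        (try (obtain ⟨_, rfl, rfl⟩ := hx; exact absurd (hfX _ hp) hi')) <;>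
        (try (obtain ⟨_, rfl, rfl⟩ := hx; exact absurd (hfX _ hp') hi))
    intro u v w huv huw
    exact hinj (h1 _ _ _ huv huw)
  · -- cover
    have h1 : ∀ u v, E1 n N Mem (lab u) (lab v) → 1 ≤ yl (lab u) + yl (lab v) := by
      rintro u v (⟨p, hp, hu, hv⟩ | ⟨p, hp, hu, hv⟩ | ⟨p, hp, hu, hv⟩ | ⟨p, i, hm, hu, hv⟩ |
        ⟨p, i, j, hm, hj, hu, hv⟩)
      · rw [hu, hv, y0 p hp, y1 p hp]; norm_num
      · rw [hu, hv, y1 p hp, y2 p hp]; norm_num
      · rw [hu, hv, y0 p hp, y2 p hp]; norm_num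
      · rw [hu, hv, y0 p (hMn _ _ hm)]
        have := ynn (1, p, i)
        linarith
      · rw [hu, hv, yc p i hm (hX v i j hj hv), ys]; norm_num
    intro u v h
    rcases (hadj u v).1 h with h | h
    · exact h1 u v h
    · rw [add_comm]; exact h1 v u h
  · -- covered
    intro v hv
    have hv' : yl (lab v) ≠ 0 := hv
    simp only [yl] at hv'
    split_ifs at hv' with c1 c2 c3
    · obtain ⟨p, hp, hl⟩ := c1
      obtain ⟨w, hw⟩ := pc p (f p) (hfM p hp)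
      exact ⟨w, Or.inl (Or.inl ⟨p, hp, hl, hw⟩)⟩
    · obtain ⟨p, hp, hl | hl⟩ := c2
      · obtain ⟨w, hw⟩ := pt p hp 2 (by norm_num)
        exact ⟨w, Or.inl (Or.inr (Or.inl ⟨p, hp, hl, hw⟩))⟩
      · obtain ⟨w, hw⟩ := pt p hp 1 (by norm_num)
        exact ⟨w, Or.inr (Or.inr (Or.inl ⟨p, hp, hw, hl⟩))⟩
    · obtain ⟨p, i, hm, hi, hl⟩ := c3
      obtain ⟨w, hw⟩ := ps p i hm hi
      exact ⟨w, Or.inl (Or.inr (Or.inr ⟨p, i, hm, hi, hl, hw⟩))⟩
    · exact absurd rfl hv'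
  · -- tight
    have h1 : ∀ x y, R1 x y → yl x + yl y ≤ 1 := by
      rintro x y (⟨p, hp, rfl, rfl⟩ | ⟨p, hp, rfl, rfl⟩ | ⟨p, i, hm, hi, rfl, rfl⟩)
      · rw [y0 p hp, yc0 p _ (hfX p hp)]; norm_num
      · rw [y1 p hp, y2 p hp]; norm_num
      · rw [yc p i hm hi, ys]; norm_num
    rintro u v (h | h)
    · exact h1 _ _ h
    · rw [add_comm]; exact h1 _ _ h

/-- soundness -/
theorem not_stable_of_uncovered (hinj : Function.Injective lab) (hMn : ∀ p i, Mem p i → p < n)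
    (hadj : ∀ u v, H.Adj u v ↔ E1 n N Mem (lab u) (lab v) ∨ E1 n N Mem (lab v) (lab u))
    (pt : ∀ p, p < n → ∀ k, k < 3 → ∃ u, lab u = (0, p, k)) {p : ℕ} (hp : p < n)
    (J : ℕ → Finset ℕ) (hJ : ∀ i, Mem p i → ∀ j ∈ J i, j < N ∧ ∃ u, lab u = (2, i, j))
    (hbig : ∀ i, Mem p i → n < (J i).card) : ¬ Stable H := by
  classical
  obtain ⟨a, ha⟩ := pt p hp 0 (by norm_num)
  obtain ⟨b, hb⟩ := pt p hp 1 (by norm_num)
  obtain ⟨d, hd⟩ := pt p hp 2 (by norm_num)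
  have hab : H.Adj a b := (hadj a b).2 (Or.inl (Or.inl ⟨p, hp, ha, hb⟩))
  have hbd : H.Adj b d := (hadj b d).2 (Or.inl (Or.inr (Or.inl ⟨p, hp, hb, hd⟩)))
  have had : H.Adj a d := (hadj a d).2 (Or.inl (Or.inr (Or.inr (Or.inl ⟨p, hp, ha, hd⟩))))
  -- neighbours
  have nb : ∀ v, H.Adj b v → v = a ∨ v = d := by
    intro v hv
    rcases (hadj b v).1 hv with
      (⟨q, hq, h1, h2⟩ | ⟨q, hq, h1, h2⟩ | ⟨q, hq, h1, h2⟩ | ⟨q, i, hm, h1, h2⟩ |
        ⟨q, i, j, hm, hj, h1, h2⟩) |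
      (⟨q, hq, h1, h2⟩ | ⟨q, hq, h1, h2⟩ | ⟨q, hq, h1, h2⟩ | ⟨q, i, hm, h1, h2⟩ |
        ⟨q, i, j, hm, hj, h1, h2⟩) <;>
      simp only [hb, Prod.mk.injEq] at h1 h2 <;> (try omega)
    · obtain ⟨_, rfl, _⟩ := h1
      exact Or.inr (hinj (h2.trans hd.symm))
    · obtain ⟨_, rfl, _⟩ := h2
      exact Or.inl (hinj (h1.trans ha.symm))
  have nd : ∀ v, H.Adj d v → v = a ∨ v = b := by
    intro v hv
    rcases (hadj d v).1 hv with
      (⟨q, hq, h1, h2⟩ | ⟨q, hq, h1, h2⟩ | ⟨q, hq, h1, h2⟩ | ⟨q, i, hm, h1, h2⟩ |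
        ⟨q, i, j, hm, hj, h1, h2⟩) |
      (⟨q, hq, h1, h2⟩ | ⟨q, hq, h1, h2⟩ | ⟨q, hq, h1, h2⟩ | ⟨q, i, hm, h1, h2⟩ |
        ⟨q, i, j, hm, hj, h1, h2⟩) <;>
      simp only [hd, Prod.mk.injEq] at h1 h2 <;> (try omega)
    · obtain ⟨_, rfl, _⟩ := h2
      exact Or.inr (hinj (h1.trans hb.symm))
    · obtain ⟨_, rfl, _⟩ := h2
      exact Or.inl (hinj (h1.trans ha.symm))
  have na : ∀ v, H.Adj a v → v = b ∨ v = d ∨ ∃ i, Mem p i ∧ lab v = (1, p, i) := by
    intro v hv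
    rcases (hadj a v).1 hv with
      (⟨q, hq, h1, h2⟩ | ⟨q, hq, h1, h2⟩ | ⟨q, hq, h1, h2⟩ | ⟨q, i, hm, h1, h2⟩ |
        ⟨q, i, j, hm, hj, h1, h2⟩) |
      (⟨q, hq, h1, h2⟩ | ⟨q, hq, h1, h2⟩ | ⟨q, hq, h1, h2⟩ | ⟨q, i, hm, h1, h2⟩ |
        ⟨q, i, j, hm, hj, h1, h2⟩) <;>
      simp only [ha, Prod.mk.injEq] at h1 h2 <;> (try omega)
    · obtain ⟨_, rfl, _⟩ := h1
      exact Or.inl (hinj (h2.trans hb.symm))
    · obtain ⟨_, rfl, _⟩ := h1
      exact Or.inr (Or.inl (hinj (h2.trans hd.symm)))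
    · obtain ⟨_, rfl, _⟩ := h1
      exact Or.inr (Or.inr ⟨i, hm, h2⟩)
  obtain ⟨M, hM, hcard⟩ := exists_nu (G := H)
  -- general conclusion from a matching avoiding the connectors at a
  have fin : ∀ M' : Finset (Sym2 W), IsMatching H M' → M'.card = nu H →
      (∀ v i, lab v = (1, p, i) → s(a, v) ∉ M') → ¬ Stable H := by
    intro M' hM' hc' hno
    refine not_stable_of_triangle hM' hc' hab hbd had ?_
    intro e he hh
    have key : ∀ u v, s(u, v) ∈ M' → (u = a ∨ u = b ∨ u = d) →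
        s(u, v) = s(a, b) ∨ s(u, v) = s(b, d) ∨ s(u, v) = s(a, d) := by
      intro u v huv hu
      have hadj' : H.Adj u v := hM'.1 _ huv
      rcases hu with rfl | rfl | rfl
      · rcases na v hadj' with rfl | rfl | ⟨i, _, hl⟩
        · exact Or.inl rfl
        · exact Or.inr (Or.inr rfl)
        · exact absurd huv (hno v i hl)
      · rcases nb v hadj' with rfl | rfl
        · exact Or.inl Sym2.eq_swap
        · exact Or.inr (Or.inl rfl)
      · rcases nd v hadj' with rfl | rfl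
        · exact Or.inr (Or.inr Sym2.eq_swap)
        · exact Or.inr (Or.inl Sym2.eq_swap)
    rcases hh with h | h | h
    · obtain ⟨v, rfl⟩ := h
      exact key _ _ he (Or.inl rfl)
    · obtain ⟨v, rfl⟩ := h
      exact key _ _ he (Or.inr (Or.inl rfl))
    · obtain ⟨v, rfl⟩ := h
      exact key _ _ he (Or.inr (Or.inr rfl))
  by_cases hex : ∃ v i, lab v = (1, p, i) ∧ s(a, v) ∈ M
  · obtain ⟨c, i, hc, hac⟩ := hex
    have hadjac : H.Adj a c := hM.1 _ hac
    have hmem : Mem p i := by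
      rcases na c hadjac with rfl | rfl | ⟨i', hm, hl⟩
      · rw [hb] at hc; simp at hc
      · rw [hd] at hc; simp at hc
      · rw [hc] at hl
        simp only [Prod.mk.injEq, true_and] at hl
        rwa [hl]
    -- an uncovered copy
    obtain ⟨s, j, hj, hs, hunc⟩ : ∃ s j, j < N ∧ lab s = (2, i, j) ∧ ∀ e ∈ M, s ∉ e := by
      by_contra hcon
      push Not at hcon
      have h1 : ∀ j : J i, ∃ s, lab s = (2, i, (j : ℕ)) ∧ ∃ e ∈ M, s ∈ e := by
        rintro ⟨j, hj⟩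
        obtain ⟨hjN, s, hs⟩ := hJ i hmem j hj
        exact ⟨s, hs, hcon s j hjN hs⟩
      choose s hs e he hse using h1
      have h2 : ∀ j : J i, ∃ q : Fin n, ∃ c', lab c' = (1, (q : ℕ), i) ∧ e j = s(s j, c') := by
        intro j
        obtain ⟨c', hc'⟩ := hse j
        have hh := he j
        rw [hc'] at hh
        have hadj' : H.Adj (s j) c' := hM.1 _ hh
        have hsj := hs j
        rcases (hadj (s j) c').1 hadj' with
          (⟨q, hq, h1, h2⟩ | ⟨q, hq, h1, h2⟩ | ⟨q, hq, h1, h2⟩ | ⟨q, i', hm, h1, h2⟩ |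
            ⟨q, i', j', hm, hj', h1, h2⟩) |
          (⟨q, hq, h1, h2⟩ | ⟨q, hq, h1, h2⟩ | ⟨q, hq, h1, h2⟩ | ⟨q, i', hm, h1, h2⟩ |
            ⟨q, i', j', hm, hj', h1, h2⟩) <;>
          simp only [hsj, Prod.mk.injEq] at h1 h2 <;> (try omega)
        refine ⟨⟨q, hMn _ _ hm⟩, c', ?_, hc'⟩
        rw [h1, h2.2.1]
      choose q c' hc' hec' using h2
      have hqinj : Function.Injective q := by
        intro j1 j2 h12
        have h3 : c' j1 = c' j2 := by
          apply hinj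
          rw [hc', hc', h12]
        have h4 : e j1 = e j2 := by
          refine hM.2 (c' j1) _ _ (he j1) (he j2) ?_ ?_
          · rw [hec' j1]; simp
          · rw [hec' j2, h3]; simp
        rw [hec' j1, hec' j2, h3] at h4
        have h5 : s j1 = s j2 := by
          rw [Sym2.eq_iff] at h4
          rcases h4 with h4 | h4
          · exact h4.1
          · exact h4.1.trans h4.2
        have h6 := hs j1
        rw [h5, hs j2] at h6
        simp only [Prod.mk.injEq, true_and] at h6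
        exact Subtype.ext h6.symm
      have h7 := Fintype.card_le_of_injective q hqinj
      rw [Fintype.card_fin, Fintype.card_coe] at h7
      have h8 := hbig i hmem
      omega
    have hadjcs : H.Adj c s :=
      (hadj c s).2 (Or.inl (Or.inr (Or.inr (Or.inr (Or.inr ⟨p, i, j, hmem, hj, hc, hs⟩)))))
    have hnotin : s(c, s) ∉ M := fun h => hunc _ h (by simp)
    have hane : a ≠ s := by
      rintro rfl
      rw [ha] at hs
      simp at hs
    have hane2 : a ≠ c := hadjac.ne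
    -- the new matching
    have hM' : IsMatching H (insert s(c, s) (M.erase s(a, c))) := by
      constructor
      · intro e he
        rw [mem_insert, mem_erase] at he
        rcases he with rfl | he
        · exact hadjcs
        · exact hM.1 e he.2
      · have aux : ∀ v f, f ∈ M.erase s(a, c) → v ∈ s(c, s) → v ∈ f → False := by
          intro v f hf hv hvf
          rw [mem_erase] at hf
          rw [Sym2.mem_iff] at hv
          rcases hv with rfl | rfl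
          · exact hf.1 (hM.2 v f s(a, v) hf.2 hac hvf (by simp))
          · exact hunc _ hf.2 hvf
        intro v e f he hf hve hvf
        rw [mem_insert] at he hf
        rcases he with rfl | he <;> rcases hf with rfl | hf
        · rfl
        · exact (aux v f hf hve hvf).elim
        · exact (aux v e he hvf hve).elim
        · exact hM.2 v e f (mem_of_mem_erase he) (mem_of_mem_erase hf) hve hvf
    refine fin _ hM' ?_ ?_
    · rw [card_insert_of_notMem (fun h => hnotin (mem_of_mem_erase h)), card_erase_of_mem hac,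
        ← hcard]
      have : 0 < M.card := card_pos.2 ⟨_, hac⟩
      omega
    · intro v i' hv hmem'
      rw [mem_insert, mem_erase] at hmem'
      rcases hmem' with h | h
      · rw [Sym2.eq_iff] at h
        rcases h with h | h
        · exact hane2 h.1
        · exact hane h.1
      · exact h.1 (hM.2 a _ _ h.2 hac (by simp) (by simp))
  · push Not at hex
    exact fin M hM hcard hex

end Pool.Agent.H569R2.VDel
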