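import Pool.Agent.H569R2.VDel.Red

/-!
# Correctness of the reduction
-/

namespace Pool.Agent.H569R2.VDel

open Finset Pool.Agent.NPC

/-- the label of a vertex number -/
def labN (K v : ℕ) : ℕ × ℕ × ℕ := (v / K / K, v / K % K, v % K)

theorem labN_code {K t x y : ℕ} (hx : x < K) (hy : y < K) : labN K (code K t x y) = (t, x, y) := by
  unfold labN code
  have hK : 0 < K := by omega
  have h1 : ((t * K + x) * K + y) / K = t * K + x := by
    rw [mul_comm, Nat.mul_add_div hK, Nat.div_eq_of_lt hy, add_zero]
  have h2 : ((t * K + x) * K + y) % K = y := by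
    rw [mul_comm, Nat.mul_add_mod, Nat.mod_eq_of_lt hy]
  have h3 : (t * K + x) / K = t := by
    rw [mul_comm, Nat.mul_add_div hK, Nat.div_eq_of_lt hx, add_zero]
  have h4 : (t * K + x) % K = x := by
    rw [mul_comm, Nat.mul_add_mod, Nat.mod_eq_of_lt hx]
  rw [h1, h2, h3, h4]

theorem code_labN (K v : ℕ) : code K (labN K v).1 (labN K v).2.1 (labN K v).2.2 = v := by
  unfold labN code
  simp only
  rw [mul_comm (v / K / K) K, Nat.div_add_mod, mul_comm (v / K) K, Nat.div_add_mod]

theorem labN_inj {K v w : ℕ} (h : labN K v = labN K w) : v = w := by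
  rw [← code_labN K v, ← code_labN K w, h]

theorem labN_eq {K v t x y : ℕ} (h : labN K v = (t, x, y)) : v = code K t x y := by
  rw [← code_labN K v, h]

theorem code_lt {K t x y : ℕ} (ht : t < 3) (hx : x < K) (hy : y < K) :
    code K t x y < 3 * K * K := by
  unfold code
  have h1 : t * K + x + 1 ≤ 3 * K := by nlinarith
  nlinarith

variable (q A : ℕ) (I : List (List ℕ))

theorem nn_lt_NN : nn I < NN q I := by
  unfold NN
  nlinarith [Nat.zero_le (nn I), Nat.zero_le q]

theorem NN_lt_KK : NN q I < KK q I := by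
  unfold KK; omega

theorem len_lt_KK : I.length < KK q I := by
  unfold KK; omega

theorem three_le_KK : 3 ≤ KK q I := by
  unfold KK; omega

/-- the membership relation -/
def Mem (p i : ℕ) : Prop := memb I p i = true

theorem mem_iff (p i : ℕ) : Mem I p i ↔ i < I.length ∧ p < nn I ∧
    I.flatten.getD p 0 ∈ I.getD i [] := by
  unfold Mem memb
  simp only [Bool.and_eq_true, decide_eq_true_eq, and_assoc]

theorem mem_edges (x y : ℕ) : (x, y) ∈ edges q I ↔
    E1 (nn I) (NN q I) (Mem I) (labN (KK q I) x) (labN (KK q I) y) := by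
  have hn := nn_lt_NN q I
  have hN := NN_lt_KK q I
  have hm := len_lt_KK q I
  have h3 := three_le_KK q I
  constructor
  · intro h
    simp only [edges, blk, List.mem_flatMap, List.mem_range, List.mem_cons] at h
    obtain ⟨p, hp, h | h | h | ⟨i, hi, h⟩⟩ := h
    · rw [Prod.mk.injEq] at h
      rw [h.1, h.2, labN_code (by omega) (by omega), labN_code (by omega) (by omega)]
      exact Or.inl ⟨p, hp, rfl, rfl⟩
    · rw [Prod.mk.injEq] at h
      rw [h.1, h.2, labN_code (by omega) (by omega), labN_code (by omega) (by omega)]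
      exact Or.inr (Or.inl ⟨p, hp, rfl, rfl⟩)
    · rw [Prod.mk.injEq] at h
      rw [h.1, h.2, labN_code (by omega) (by omega), labN_code (by omega) (by omega)]
      exact Or.inr (Or.inr (Or.inl ⟨p, hp, rfl, rfl⟩))
    · cases hmb : memb I p i with
      | false => rw [hmb] at h; simp at h
      | true =>
        rw [hmb] at h
        simp only [cond_true, List.mem_cons, List.mem_map, List.mem_range] at h
        rcases h with h | ⟨j, hj, h⟩
        · rw [Prod.mk.injEq] at h
          rw [h.1, h.2, labN_code (by omega) (by omega), labN_code (by omega) (by omega)]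
          exact Or.inr (Or.inr (Or.inr (Or.inl ⟨p, i, hmb, rfl, rfl⟩)))
        · rw [Prod.mk.injEq] at h
          rw [← h.1, ← h.2, labN_code (by omega) (by omega), labN_code (by omega) (by omega)]
          exact Or.inr (Or.inr (Or.inr (Or.inr ⟨p, i, j, hmb, hj, rfl, rfl⟩)))
  · intro h
    simp only [edges, blk, List.mem_flatMap, List.mem_range, List.mem_cons]
    rcases h with ⟨p, hp, h1, h2⟩ | ⟨p, hp, h1, h2⟩ | ⟨p, hp, h1, h2⟩ | ⟨p, i, hmb, h1, h2⟩ |
      ⟨p, i, j, hmb, hj, h1, h2⟩
    · exact ⟨p, hp, Or.inl (by rw [labN_eq h1, labN_eq h2])⟩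
    · exact ⟨p, hp, Or.inr (Or.inl (by rw [labN_eq h1, labN_eq h2]))⟩
    · exact ⟨p, hp, Or.inr (Or.inr (Or.inl (by rw [labN_eq h1, labN_eq h2])))⟩
    · have h3 := (mem_iff I p i).1 hmb
      refine ⟨p, h3.2.1, Or.inr (Or.inr (Or.inr ⟨i, h3.1, ?_⟩))⟩
      unfold Mem at hmb
      rw [hmb, labN_eq h1, labN_eq h2]
      simp
    · have h3 := (mem_iff I p i).1 hmb
      refine ⟨p, h3.2.1, Or.inr (Or.inr (Or.inr ⟨i, h3.1, ?_⟩))⟩
      unfold Mem at hmb
      rw [hmb, labN_eq h1, labN_eq h2]
      simp only [cond_true, List.mem_cons, List.mem_map, List.mem_range]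
      exact Or.inr ⟨j, hj, rfl⟩

theorem E1_ne {n N : ℕ} {M : ℕ → ℕ → Prop} {x y : ℕ × ℕ × ℕ} (h : E1 n N M x y) : x ≠ y := by
  rcases h with ⟨p, hp, rfl, rfl⟩ | ⟨p, hp, rfl, rfl⟩ | ⟨p, hp, rfl, rfl⟩ | ⟨p, i, hmb, rfl, rfl⟩ |
      ⟨p, i, j, hmb, hj, rfl, rfl⟩ <;> simp

theorem len_costs : (red q A I).1.length = 3 * KK q I * KK q I := by
  simp [red, costs]

theorem getElem_costs (v : ℕ) (hv : v < (red q A I).1.length) : (red q A I).1[v] =
    bif decide (2 * KK q I * KK q I ≤ v) then 1 else big q A I := by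
  simp [red, costs]

theorem graph_adj (u v : Fin (red q A I).1.length) : (graph (red q A I)).Adj u v ↔
    E1 (nn I) (NN q I) (Mem I) (labN (KK q I) u) (labN (KK q I) v) ∨
    E1 (nn I) (NN q I) (Mem I) (labN (KK q I) v) (labN (KK q I) u) := by
  unfold graph
  rw [SimpleGraph.fromRel_adj]
  change u ≠ v ∧ (((u : ℕ), (v : ℕ)) ∈ edges q I ∨ ((v : ℕ), (u : ℕ)) ∈ edges q I) ↔ _
  rw [mem_edges, mem_edges]
  constructor
  · exact fun h => h.2
  · intro h
    refine ⟨?_, h⟩
    rintro rfl
    rcases h with h | h <;> exact E1_ne h rfl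

/-- the labels of the vertices outside `S` -/
def labW (S : List ℕ) (w : {v : Fin (red q A I).1.length | (v : ℕ) ∉ S}) : ℕ × ℕ × ℕ :=
  labN (KK q I) (w.1 : ℕ)

theorem labW_inj (S : List ℕ) : Function.Injective (labW q A I S) := by
  intro u v h
  exact Subtype.ext (Fin.ext (labN_inj h))

theorem exists_labW (S : List ℕ) {t x y : ℕ} (ht : t < 3) (hx : x < KK q I) (hy : y < KK q I)
    (h : code (KK q I) t x y ∉ S) : ∃ u, labW q A I S u = (t, x, y) :=
  ⟨⟨⟨code (KK q I) t x y, by rw [len_costs]; exact code_lt ht hx hy⟩, h⟩, labN_code hx hy⟩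

theorem labW_eq {S : List ℕ} {w : {v : Fin (red q A I).1.length | (v : ℕ) ∉ S}} {t x y : ℕ}
    (h : labW q A I S w = (t, x, y)) : code (KK q I) t x y ∉ S := by
  have h1 := labN_eq h
  have h2 := w.2
  rw [Set.mem_ofPred_eq, h1] at h2
  exact h2

/-- The solution made of a family of sets. -/
def sol (X : List ℕ) : List ℕ :=
  X.flatMap (fun i => (List.range (NN q I)).map (fun j => code (KK q I) 2 i j))

theorem mem_sol {X : List ℕ} {v : ℕ} : v ∈ sol q I X ↔
    ∃ i ∈ X, ∃ j, j < NN q I ∧ code (KK q I) 2 i j = v := by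
  simp only [sol, List.mem_flatMap, List.mem_map, List.mem_range]

theorem code_inj {K t x y t' x' y' : ℕ} (hx : x < K) (hy : y < K) (hx' : x' < K) (hy' : y' < K)
    (h : code K t x y = code K t' x' y') : t = t' ∧ x = x' ∧ y = y' := by
  have := congrArg (labN K) h
  rw [labN_code hx hy, labN_code hx' hy'] at this
  simpa using this

/-- completeness -/
theorem feasible_sol {X : List ℕ} (hX : ∀ i ∈ X, i < I.length)
    (hcov : ∀ p, p < nn I → ∃ i, i ∈ X ∧ Mem I p i) : Feasible (red q A I) (sol q I X) := by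
  have hn := nn_lt_NN q I
  have hN := NN_lt_KK q I
  have hm := len_lt_KK q I
  have h3 := three_le_KK q I
  unfold Feasible
  have hS : ∀ t x y, t ≠ 2 → x < KK q I → y < KK q I → code (KK q I) t x y ∉ sol q I X := by
    intro t x y ht hx hy h
    rw [mem_sol] at h
    obtain ⟨i, hi, j, hj, h⟩ := h
    have := hX i hi
    exact ht (code_inj (by omega) (by omega) hx hy h).1.symm
  refine stable_of_cover (lab := labW q A I (sol q I X)) (n := nn I) (N := NN q I) (Mem := Mem I)
    (labW_inj q A I _) (fun p i h => ((mem_iff I p i).1 h).2.1) (fun u v => ?_)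
    {i | i ∈ X} ?_ ?_ ?_ ?_ hn.le hcov
  · rw [SimpleGraph.induce_adj]
    exact graph_adj q A I _ _
  · intro u i j hj hu hiX
    exact labW_eq q A I hu (by rw [mem_sol]; exact ⟨i, hiX, j, hj, rfl⟩)
  · intro p hp k hk
    exact exists_labW q A I _ (by norm_num) (by omega) (by omega)
      (hS _ _ _ (by norm_num) (by omega) (by omega))
  · intro p i hmb
    have := (mem_iff I p i).1 hmb
    exact exists_labW q A I _ (by norm_num) (by omega) (by omega)
      (hS _ _ _ (by norm_num) (by omega) (by omega))
  · intro p i hmb hi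
    have := (mem_iff I p i).1 hmb
    refine exists_labW q A I _ (by norm_num) (by omega) (by omega) ?_
    intro h
    rw [mem_sol] at h
    obtain ⟨i', hi', j, hj, h⟩ := h
    have h5 := hX i' hi'
    have h6 := (code_inj (by omega) (by omega) (by omega) (by omega) h).2.1
    rw [h6] at hi'
    exact hi hi'

/-- soundness -/
theorem exists_of_feasible {S : List ℕ} (hS : Feasible (red q A I) S)
    (hbig : ∀ v ∈ S, v < 3 * KK q I * KK q I → 2 * KK q I * KK q I ≤ v) {p : ℕ} (hp : p < nn I) :
    ∃ i, Mem I p i ∧ (surv q I S i).length ≤ nn I := by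
  by_contra hcon
  push Not at hcon
  have hn := nn_lt_NN q I
  have hN := NN_lt_KK q I
  have hm := len_lt_KK q I
  have h3 := three_le_KK q I
  have hno : ∀ t x y, t < 2 → x < KK q I → y < KK q I → code (KK q I) t x y ∉ S := by
    intro t x y ht hx hy h
    have h1 := hbig _ h (code_lt (by omega) hx hy)
    unfold code at h1
    have : t * KK q I + x + 1 ≤ 2 * KK q I := by nlinarith
    nlinarith
  have hnd : ∀ i, (surv q I S i).Nodup := by
    intro i
    exact List.Nodup.filter _ List.nodup_range
  refine not_stable_of_uncovered (lab := labW q A I S) (n := nn I) (N := NN q I) (Mem := Mem I)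
    (labW_inj q A I _) (fun p i h => ((mem_iff I p i).1 h).2.1) (fun u v => ?_) ?_ hp
    (fun i => (surv q I S i).toFinset) ?_ ?_ hS
  · rw [SimpleGraph.induce_adj]
    exact graph_adj q A I _ _
  · intro p hp k hk
    exact exists_labW q A I _ (by norm_num) (by omega) (by omega)
      (hno _ _ _ (by norm_num) (by omega) (by omega))
  · intro i hmb j hj
    have := (mem_iff I p i).1 hmb
    rw [List.mem_toFinset] at hj
    unfold surv at hj
    rw [List.mem_filter, List.mem_range] at hj
    refine ⟨hj.1, exists_labW q A I _ (by norm_num) (by omega) (by omega) ?_⟩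
    simpa using hj.2
  · intro i hmb
    rw [List.toFinset_card_of_nodup (hnd i)]
    exact hcon i hmb

/-- the cost of the solution made of a family of sets -/
theorem cost_sol_le {X : List ℕ} (hX : ∀ i ∈ X, i < I.length) :
    cost (red q A I) (sol q I X) ≤ NN q I * X.length := by
  unfold cost
  have h1 : ∀ v ∈ univ.filter (fun v : Fin (red q A I).1.length => (v : ℕ) ∈ sol q I X),
      (red q A I).1[v] ≤ 1 := by
    intro v hv
    rw [mem_filter, mem_sol] at hv
    obtain ⟨_, i, hi, j, hj, h⟩ := hv
    have := getElem_costs q A I v v.2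
    change (red q A I).1[(v : ℕ)] ≤ 1
    rw [this, decide_eq_true]
    · simp
    · rw [← h]
      unfold code
      nlinarith [Nat.zero_le (i * KK q I)]
  refine (sum_le_card_nsmul _ _ 1 h1).trans ?_
  rw [smul_eq_mul, mul_one]
  have h2 : (univ.filter (fun v : Fin (red q A I).1.length => (v : ℕ) ∈ sol q I X)).card ≤
      (sol q I X).toFinset.card := by
    apply card_le_card_of_injOn (fun v : Fin (red q A I).1.length => (v : ℕ))
    · intro v hv
      simp only [coe_filter, mem_univ, true_and, Set.mem_setOf_eq] at hv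
      simpa using hv
    · intro u _ v _ h
      exact Fin.ext h
  refine h2.trans ((List.toFinset_card_le _).trans ?_)
  unfold sol
  rw [List.length_flatMap]
  simp only [List.length_map, List.length_range, List.map_const', List.sum_replicate, smul_eq_mul]
  rw [mul_comm]

/-- The lower bound for the cost in terms of the size of the translated solution. -/
theorem le_cost (hA : 1 ≤ A) (S : List ℕ) :
    (NN q I - nn I) * (back q (I, S)).length ≤ cost (red q A I) S := by
  have hn := nn_lt_NN q I
  have hN := NN_lt_KK q I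
  have hm := len_lt_KK q I
  unfold cost
  have hone : ∀ v ∈ univ.filter (fun v : Fin (red q A I).1.length => (v : ℕ) ∈ S),
      1 ≤ (red q A I).1[v] := by
    intro v _
    have := getElem_costs q A I v v.2
    change 1 ≤ (red q A I).1[(v : ℕ)]
    rw [this]
    cases decide (2 * KK q I * KK q I ≤ (v : ℕ))
    · simp only [cond_false, big]
      nlinarith [Nat.zero_le (NN q I * I.length)]
    · simp
  refine le_trans ?_ (card_nsmul_le_sum _ _ 1 hone)
  rw [smul_eq_mul, mul_one]
  -- the set of indices
  set T : Finset ℕ := (range I.length).filter (fun i => (surv q I S i).length ≤ nn I) with hT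
  have hlen : (back q (I, S)).length = T.card := by
    unfold back
    rw [List.length_map, ← List.toFinset_card_of_nodup (List.Nodup.filter _ List.nodup_range), hT]
    congr 1
    ext i
    simp
  rw [hlen]
  have hsum : ∑ i ∈ T, (NN q I - nn I) ≤
      ∑ i ∈ T, ((range (NN q I)).filter (fun j => code (KK q I) 2 i j ∈ S)).card := by
    apply sum_le_sum
    intro i hi
    rw [hT, mem_filter] at hi
    have h1 : ((range (NN q I)).filter (fun j => code (KK q I) 2 i j ∈ S)).card +
        ((range (NN q I)).filter (fun j => ¬ code (KK q I) 2 i j ∈ S)).card = NN q I := by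
      rw [card_filter_add_card_filter_not, card_range]
    have h2 : ((range (NN q I)).filter (fun j => ¬ code (KK q I) 2 i j ∈ S)).card =
        (surv q I S i).length := by
      unfold surv
      rw [← List.toFinset_card_of_nodup (List.Nodup.filter _ List.nodup_range)]
      congr 1
      ext j
      simp
    omega
  rw [sum_const, smul_eq_mul, mul_comm] at hsum
  refine hsum.trans ?_
  rw [← card_sigma]
  have h3 := three_le_KK q I
  have hlt : ∀ i j, i < I.length → j < NN q I →
      code (KK q I) 2 i j < (red q A I).1.length := by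
    intro i j hi hj
    rw [len_costs]
    exact code_lt (by norm_num) (by omega) (by omega)
  have hpos : 0 < (red q A I).1.length := by
    rw [len_costs]
    positivity
  apply card_le_card_of_injOn (fun x : (Σ _ : ℕ, ℕ) =>
    if h : code (KK q I) 2 x.1 x.2 < (red q A I).1.length then
      (⟨code (KK q I) 2 x.1 x.2, h⟩ : Fin (red q A I).1.length)
    else ⟨0, hpos⟩)
  · rintro ⟨i, j⟩ hx
    simp only [coe_sigma, Set.mem_sigma_iff, mem_coe, hT, mem_filter, mem_range] at hx
    have hh := hlt i j hx.1.1 hx.2.1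
    simp only [dif_pos hh, coe_filter, mem_univ, true_and, Set.mem_setOf_eq]
    exact hx.2.2
  · rintro ⟨i, j⟩ hx ⟨i', j'⟩ hx' h
    simp only [coe_sigma, Set.mem_sigma_iff, mem_coe, hT, mem_filter, mem_range] at hx hx'
    have hh := hlt i j hx.1.1 hx.2.1
    have hh' := hlt i' j' hx'.1.1 hx'.2.1
    simp only [dif_pos hh, dif_pos hh', Fin.mk.injEq] at h
    have := code_inj (by omega) (by omega) (by omega) (by omega) h
    rw [this.2.1, this.2.2]

/-- the translated solution is a set cover -/
theorem isCover_back {S : List ℕ} (hS : Feasible (red q A I) S)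
    (hbig : ∀ v ∈ S, v < 3 * KK q I * KK q I → 2 * KK q I * KK q I ≤ v) :
    IsCover I (back q (I, S)) := by
  constructor
  · intro s hs
    unfold back at hs
    simp only [List.mem_map, List.mem_filter, List.mem_range] at hs
    obtain ⟨i, ⟨hi, _⟩, rfl⟩ := hs
    rw [List.getD_eq_getElem _ _ hi]
    exact List.getElem_mem hi
  · intro s hs x hx
    have hx' : x ∈ I.flatten := List.mem_flatten.2 ⟨s, hs, hx⟩
    obtain ⟨p, hp, hpx⟩ := List.getElem_of_mem hx'
    obtain ⟨i, hi, hsu⟩ := exists_of_feasible q A I hS hbig (p := p) hp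
    have h1 := (mem_iff I p i).1 hi
    refine ⟨I.getD i [], ?_, ?_⟩
    · unfold back
      simp only [List.mem_map, List.mem_filter, List.mem_range, decide_eq_true_eq]
      exact ⟨i, ⟨h1.1, hsu⟩, rfl⟩
    · have h2 := h1.2.2
      rw [List.getD_eq_getElem _ _ hp, hpx] at h2
      exact h2

/-- If the cost is less than the big cost, no vertex of big cost is deleted. -/
theorem no_big {S : List ℕ} (h : cost (red q A I) S < big q A I) :
    ∀ v ∈ S, v < 3 * KK q I * KK q I → 2 * KK q I * KK q I ≤ v := by
  intro v hv hlt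
  by_contra hcon
  have hv' : v < (red q A I).1.length := by rw [len_costs]; exact hlt
  have h1 : (red q A I).1[v] = big q A I := by
    rw [getElem_costs, decide_eq_false hcon, cond_false]
  have h2 : big q A I ≤ cost (red q A I) S := by
    rw [← h1]
    unfold cost
    exact single_le_sum (f := fun v : Fin (red q A I).1.length => (red q A I).1[v])
      (fun _ _ => Nat.zero_le _)
      (show (⟨v, hv'⟩ : Fin (red q A I).1.length) ∈ _ from by simpa using hv)
  omega

/-- a cover gives a feasible solution -/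
theorem feasible_of_cover {C : List (List ℕ)} (hC : IsCover I C) :
    ∃ S : List ℕ, Feasible (red q A I) S ∧ cost (red q A I) S ≤ NN q I * C.length := by
  have hlt : ∀ s ∈ C, I.idxOf s < I.length := fun s hs => List.idxOf_lt_length_of_mem (hC.1 s hs)
  have hX : ∀ i ∈ C.map (fun s => I.idxOf s), i < I.length := by
    intro i hi
    rw [List.mem_map] at hi
    obtain ⟨s, hs, rfl⟩ := hi
    exact hlt s hs
  refine ⟨sol q I (C.map (fun s => I.idxOf s)), feasible_sol q A I hX ?_, ?_⟩
  · intro p hp
    have hx : I.flatten[p] ∈ I.flatten := List.getElem_mem hp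
    obtain ⟨s, hs, hxs⟩ := List.mem_flatten.1 hx
    obtain ⟨s', hs', hxs'⟩ := hC.2 s hs _ hxs
    refine ⟨I.idxOf s', List.mem_map.2 ⟨s', hs', rfl⟩, ?_⟩
    rw [mem_iff]
    refine ⟨hlt s' hs', hp, ?_⟩
    rw [List.getD_eq_getElem _ _ hp, List.getD_eq_getElem _ _ (hlt s' hs'), List.getElem_idxOf]
    exact hxs'
  · have := cost_sol_le q A I hX
    rwa [List.length_map] at this

theorem twoCosts_red : TwoCosts (red q A I) := by
  refine ⟨big q A I, fun c hc => ?_⟩
  simp only [red, costs, List.mem_map] at hc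
  obtain ⟨v, _, rfl⟩ := hc
  cases decide (2 * KK q I * KK q I ≤ v)
  · exact Or.inr rfl
  · exact Or.inl rfl

/-- **The approximation-preserving reduction.** -/
theorem scApprox_of_vdApprox {α : ℝ} (hα : 1 ≤ α) (q : ℕ) (hq : 1 ≤ q)
    (h : VDApprox TwoCosts α) : SCApprox (α * (1 + 1 / (q : ℝ))) := by
  obtain ⟨F, hF, hFs⟩ := h
  set A : ℕ := ⌈α⌉₊ + 1 with hAdef
  have hA1 : 1 ≤ A := by omega
  have hAα : α ≤ (A : ℝ) := by
    rw [hAdef]
    push_cast
    linarith [Nat.le_ceil α]
  obtain ⟨G, hG, hGs⟩ := transfer (poly_red q A) (poly_back q) hF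
  refine ⟨G, hG, fun I => ?_⟩
  obtain ⟨S, hS, hfeas, hopt⟩ := hFs (red q A I) (twoCosts_red q A I)
  have hcost : ∀ C : List (List ℕ), IsCover I C →
      (cost (red q A I) S : ℝ) ≤ α * ((NN q I : ℝ) * C.length) := by
    intro C hC
    obtain ⟨S', hS', hc⟩ := feasible_of_cover q A I hC
    refine (hopt S' hS').trans (mul_le_mul_of_nonneg_left ?_ (by linarith))
    exact_mod_cast hc
  have htriv : IsCover I I := ⟨fun s hs => hs, fun s hs x hx => ⟨s, hs, hx⟩⟩
  have hlt : cost (red q A I) S < big q A I := by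
    have h1 := hcost I htriv
    have h2 : (cost (red q A I) S : ℝ) < (big q A I : ℝ) := by
      unfold big
      push_cast
      have h3 : (0 : ℝ) ≤ (NN q I : ℝ) * I.length := by positivity
      nlinarith
    exact_mod_cast h2
  refine ⟨back q (I, S), hGs I S hS, isCover_back q A I hfeas (no_big q A I hlt), ?_⟩
  intro C hC
  have h1 := hcost C hC
  have h2 : (((NN q I - nn I) * (back q (I, S)).length : ℕ) : ℝ) ≤ cost (red q A I) S := by
    exact_mod_cast le_cost q A I hA1 S
  have hn := nn_lt_NN q I
  rw [Nat.cast_mul, Nat.cast_sub hn.le] at h2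
  have hN : (NN q I : ℝ) = ((q : ℝ) + 1) * ((nn I : ℝ) + 1) := by
    unfold NN; push_cast; ring
  have hq' : (1 : ℝ) ≤ (q : ℝ) := by exact_mod_cast hq
  have hnn : (0 : ℝ) ≤ (nn I : ℝ) := by positivity
  have hD : 0 < (NN q I : ℝ) - nn I := by
    rw [hN]; nlinarith
  have hkey : (NN q I : ℝ) ≤ (1 + 1 / (q : ℝ)) * ((NN q I : ℝ) - nn I) := by
    have : (1 + 1 / (q : ℝ)) = ((q : ℝ) + 1) / q := by field_simp
    rw [this, div_mul_eq_mul_div, le_div_iff₀ (by linarith), hN]
    nlinarith
  have h3 : ((NN q I : ℝ) - nn I) * (back q (I, S)).length ≤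
      ((NN q I : ℝ) - nn I) * (α * (1 + 1 / (q : ℝ)) * C.length) := by
    calc ((NN q I : ℝ) - nn I) * (back q (I, S)).length ≤ α * ((NN q I : ℝ) * C.length) :=
          h2.trans h1
      _ = (α * C.length) * (NN q I : ℝ) := by ring
      _ ≤ (α * C.length) * ((1 + 1 / (q : ℝ)) * ((NN q I : ℝ) - nn I)) :=
          mul_le_mul_of_nonneg_left hkey (by positivity)
      _ = _ := by ring
  exact le_of_mul_le_mul_left h3 hD

end Pool.Agent.H569R2.VDel
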