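import Pool.Agent.H569R2.Approx
import Pool.Agent.H569R2.VDel.Gadget
import Pool.Agent.H671R2.PolyAuto

/-!
# The reduction from Set Cover and its polynomial-time computability
-/

namespace Pool.Agent.H569R2.VDel

open Pool.Agent.NPC

/-- number of element occurrences -/
def nn (I : List (List ℕ)) : ℕ := I.flatten.length

/-- number of copies of the single vertex of a set -/
def NN (q : ℕ) (I : List (List ℕ)) : ℕ := (q + 1) * (nn I + 1)

/-- bound for all the indices -/
def KK (q : ℕ) (I : List (List ℕ)) : ℕ := NN q I + I.length + 3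

/-- number of the vertex with label `(t, x, y)` -/
def code (K t x y : ℕ) : ℕ := (t * K + x) * K + y

/-- the `p`-th element belongs to the `i`-th set -/
def memb (I : List (List ℕ)) (p i : ℕ) : Bool :=
  decide (i < I.length) && decide (p < nn I) && decide (I.flatten.getD p 0 ∈ I.getD i [])

def blk (q : ℕ) (I : List (List ℕ)) (p i : ℕ) : List (ℕ × ℕ) :=
  bif memb I p i then
    (code (KK q I) 0 p 0, code (KK q I) 1 p i) ::
      (List.range (NN q I)).map (fun j => (code (KK q I) 1 p i, code (KK q I) 2 i j))
  else []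

def edges (q : ℕ) (I : List (List ℕ)) : List (ℕ × ℕ) :=
  (List.range (nn I)).flatMap (fun p =>
    (code (KK q I) 0 p 0, code (KK q I) 0 p 1) :: (code (KK q I) 0 p 1, code (KK q I) 0 p 2) ::
    (code (KK q I) 0 p 0, code (KK q I) 0 p 2) ::
    (List.range I.length).flatMap (fun i => blk q I p i))

/-- the big cost -/
def big (q A : ℕ) (I : List (List ℕ)) : ℕ := A * (NN q I * I.length + 1)

def costs (q A : ℕ) (I : List (List ℕ)) : List ℕ :=
  (List.range (3 * KK q I * KK q I)).map
    (fun v => bif decide (2 * KK q I * KK q I ≤ v) then 1 else big q A I)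

/-- the reduction -/
def red (q A : ℕ) (I : List (List ℕ)) : Inst := (costs q A I, edges q I)

/-- number of surviving copies of the single vertex of the set `i` -/
def surv (q : ℕ) (I : List (List ℕ)) (S : List ℕ) (i : ℕ) : List ℕ :=
  (List.range (NN q I)).filter (fun j => !decide (code (KK q I) 2 i j ∈ S))

/-- the translation of the solutions -/
def back (q : ℕ) (P : List (List ℕ) × List ℕ) : List (List ℕ) :=
  ((List.range P.1.length).filter
    (fun i => decide ((surv q P.1 P.2 i).length ≤ nn P.1))).map (fun i => P.1.getD i [])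

section Poly

theorem uPoly_nn : UPoly nn := UPoly.length (Poly.flatten Poly.id)

theorem uPoly_NN (q : ℕ) : UPoly (NN q) :=
  UPoly.mul (UPoly.const _) (UPoly.add uPoly_nn (UPoly.const _))

theorem uPoly_KK (q : ℕ) : UPoly (KK q) :=
  UPoly.add (UPoly.add (uPoly_NN q) (UPoly.length Poly.id)) (UPoly.const _)

variable {α : Type} [TEnc α]

@[fun_prop]
theorem p_nn {f : α → List (List ℕ)} (hf : Poly f) : Poly (fun a => nn (f a)) :=
  uPoly_nn.toPoly.comp hf

@[fun_prop]
theorem p_NN {q : ℕ} {f : α → List (List ℕ)} (hf : Poly f) : Poly (fun a => NN q (f a)) :=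
  (uPoly_NN q).toPoly.comp hf

@[fun_prop]
theorem p_KK {q : ℕ} {f : α → List (List ℕ)} (hf : Poly f) : Poly (fun a => KK q (f a)) :=
  (uPoly_KK q).toPoly.comp hf

@[fun_prop]
theorem r_nn {f : α → List (List ℕ)} (hf : Poly f) : Poly (fun a => List.range (nn (f a))) :=
  uPoly_nn.range.comp hf

@[fun_prop]
theorem r_NN {q : ℕ} {f : α → List (List ℕ)} (hf : Poly f) :
    Poly (fun a => List.range (NN q (f a))) :=
  (uPoly_NN q).range.comp hf

@[fun_prop]
theorem r_len {f : α → List (List ℕ)} (hf : Poly f) : Poly (fun a => List.range (f a).length) :=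
  (UPoly.length hf).range

@[fun_prop]
theorem p_code {K t x y : α → ℕ} (hK : Poly K) (ht : Poly t) (hx : Poly x) (hy : Poly y) :
    Poly (fun a => code (K a) (t a) (x a) (y a)) := by
  unfold code
  fun_prop

attribute [local irreducible] nn NN KK code

@[fun_prop]
theorem p_memb {I : α → List (List ℕ)} {p i : α → ℕ} (hI : Poly I) (hp : Poly p) (hi : Poly i) :
    Poly (fun a => memb (I a) (p a) (i a)) := by
  unfold memb
  fun_prop

attribute [local irreducible] memb

@[fun_prop]
theorem p_blk {q : ℕ} {I : α → List (List ℕ)} {p i : α → ℕ} (hI : Poly I) (hp : Poly p)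
    (hi : Poly i) : Poly (fun a => blk q (I a) (p a) (i a)) := by
  unfold blk
  fun_prop

attribute [local irreducible] blk

theorem poly_edges (q : ℕ) : Poly (edges q) := by
  unfold edges
  fun_prop

theorem poly_big (q A : ℕ) : Poly (big q A) := by
  unfold big
  fun_prop

@[fun_prop]
theorem p_big {q A : ℕ} {f : α → List (List ℕ)} (hf : Poly f) : Poly (fun a => big q A (f a)) :=
  (poly_big q A).comp hf

attribute [local irreducible] big

theorem r_KK (q : ℕ) : Poly (fun I => List.range (3 * KK q I * KK q I)) :=
  (UPoly.mul (UPoly.mul (UPoly.const 3) (uPoly_KK q)) (uPoly_KK q)).range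

theorem poly_costs (q A : ℕ) : Poly (costs q A) := by
  unfold costs
  have := r_KK q
  fun_prop

theorem poly_red (q A : ℕ) : Poly (red q A) := Poly.pair (poly_costs q A) (poly_edges q)

@[fun_prop]
theorem p_surv {q : ℕ} {I : α → List (List ℕ)} {S : α → List ℕ} {i : α → ℕ} (hI : Poly I)
    (hS : Poly S) (hi : Poly i) : Poly (fun a => surv q (I a) (S a) (i a)) := by
  unfold surv
  fun_prop

attribute [local irreducible] surv

theorem poly_back (q : ℕ) : Poly (back q) := by
  unfold back
  fun_prop

end Poly

end Pool.Agent.H569R2.VDel
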